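import Pool.Agent.Helper18.RD.Stmts6

/-! Project RD, row CHN: the character of the cofactor `d` at a prime not dividing `2 q`. -/

set_option autoImplicit false

namespace Pool.Agent.Helper56.RD6

open Finset Pool.Agent.Helper18.RD

/-- the sign factor at `l` -/
def hf (q a b p n l : ℕ) : ℤ := if sg q a b n l = -1 then jacobiSym (pw q l : ℤ) p else 1

/-- the sign of `n` -/
def gf (q a b p n : ℕ) : ℤ := ∏ l ∈ OP q, hf q a b p n l

theorem sg_cases (q a b n l : ℕ) : sg q a b n l = 1 ∨ sg q a b n l = -1 := by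
  unfold sg; split_ifs <;> simp

theorem jac_prod (p : ℕ) (s : Finset ℕ) (f : ℕ → ℕ) :
    jacobiSym ((∏ l ∈ s, f l : ℕ) : ℤ) p = ∏ l ∈ s, jacobiSym (f l : ℤ) p := by
  classical
  induction s using Finset.induction_on with
  | empty => simp
  | insert x s hx ih =>
    rw [Finset.prod_insert hx, Finset.prod_insert hx, Nat.cast_mul, jacobiSym.mul_left, ih]

theorem jac_unit {q p l : ℕ} (hp : p.Prime) (hpq : ¬ p ∣ q) (hl : l ∈ OP q) :
    jacobiSym (pw q l : ℤ) p = 1 ∨ jacobiSym (pw q l : ℤ) p = -1 := by
  have hl' : l ∈ q.primeFactors := (Finset.mem_erase.mp hl).2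
  have hlp := Nat.prime_of_mem_primeFactors hl'
  have hlq := Nat.dvd_of_mem_primeFactors hl'
  have hne : l ≠ p := by rintro rfl; exact hpq hlq
  have hc : Nat.Coprime (pw q l) p := ((Nat.coprime_primes hlp hp).mpr hne).pow_left _
  apply jacobiSym.eq_one_or_neg_one
  rw [Int.gcd_natCast_natCast]
  exact hc

theorem st_CHN (hUV : ST_UV) : ST_CHN := by
  intro q a b p _ _ _ hp _ hpq
  have hu : ∀ n, ∀ l ∈ OP q, hf q a b p n l = 1 ∨ hf q a b p n l = -1 := by
    intro n l hl
    unfold hf
    split_ifs
    · exact jac_unit hp hpq hl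
    · exact Or.inl rfl
  have hg : ∀ n, gf q a b p n = 1 ∨ gf q a b p n = -1 := by
    intro n
    unfold gf
    have key : ∀ s : Finset ℕ, s ⊆ OP q →
        (∏ l ∈ s, hf q a b p n l = 1 ∨ ∏ l ∈ s, hf q a b p n l = -1) := by
      intro s
      induction s using Finset.induction_on with
      | empty => intro _; left; simp
      | insert x s hx ih =>
        intro hs
        rw [Finset.prod_insert hx]
        rcases hu n x (hs (Finset.mem_insert_self x s)) with h1 | h1 <;>
        rcases ih (fun y hy => hs (Finset.mem_insert_of_mem hy)) with h2 | h2 <;>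
        rw [h1, h2] <;> simp
    exact key _ (Finset.Subset.refl _)
  refine ⟨gf q a b p, hg, ?_⟩
  intro n n' h
  obtain ⟨_, _, h3, _⟩ := hUV q a b n n' h
  rw [← h3, jacobiSym.mul_left]
  have hv : jacobiSym (vv q a b n n' : ℤ) p = gf q a b p n * gf q a b p n' := by
    unfold vv gf
    rw [jac_prod, Finset.prod_filter, ← Finset.prod_mul_distrib]
    apply Finset.prod_congr rfl
    intro l hl
    have hj := jac_unit hp hpq hl
    unfold hf
    rcases sg_cases q a b n l with h1 | h1 <;> rcases sg_cases q a b n' l with h2 | h2 <;>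
    rcases hj with hj | hj <;> simp [h1, h2, hj]
  rw [hv]
  ring

end Pool.Agent.Helper56.RD6
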