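import Pool.Agent.Helper18.RD.Stmts7

/-! Project RD, row MAIN6P: from PL2, GS, LLC, DPN. -/

set_option autoImplicit false

namespace Pool.Agent.Helper56.RD6

open Finset Pool.Agent.Helper18.RD

theorem SS_card_le (N q a : ℕ) : ((SS N q a).card : ℝ) ≤ N := by
  have h1 : (SS N q a).card ≤ N := by
    calc _ ≤ (range N).card := card_filter_le _ _
      _ = N := card_range N
  exact_mod_cast h1

theorem fil_card_le (q y : ℕ) :
    (((Icc 1 y).filter (fun p => p.Prime ∧ ¬ p ∣ q)).card : ℝ) ≤ ((NP q y).card : ℝ) + 1 := by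
  have h1 : (Icc 1 y).filter (fun p => p.Prime ∧ ¬ p ∣ q) ⊆ insert 2 (NP q y) := by
    intro p hp
    simp only [NP, mem_insert, mem_filter] at hp ⊢
    by_cases h2 : p = 2
    · exact Or.inl h2
    · exact Or.inr ⟨hp.1, hp.2.1, h2, hp.2.2⟩
  have h2 : ((Icc 1 y).filter (fun p => p.Prime ∧ ¬ p ∣ q)).card ≤ (NP q y).card + 1 :=
    (card_le_card h1).trans (card_insert_le _ _)
  exact_mod_cast h2

/-- DPN with a weight `D` of size `D ^ κ ≤ K N ^ (ε / 4)` -/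
theorem dpn_use (hDPN : ST_DPN) (ε : ℝ) (hε : 0 < ε) : ∃ κ : ℝ, 0 < κ ∧ ∀ K : ℝ, 1 ≤ K →
    ∃ C : ℝ, 0 < C ∧ ∀ (N q a P y : ℕ) (D : ℝ), 1 ≤ N → 1 ≤ q → 1 ≤ y → Nat.Coprime q a →
      Real.sqrt N ≤ P → 1 ≤ D → (P : ℝ) ≤ D * (PP q P).card → D ^ κ ≤ K * (N : ℝ) ^ (ε / 4) →
      (N : ℝ) ^ ε * Real.sqrt y ≤ (((Icc 1 y).filter (fun p => p.Prime ∧ ¬ p ∣ q)).card : ℝ) →
      ((SS N q a).card : ℝ) ≤ C * ((N : ℝ) ^ ε * y) := by
  obtain ⟨ε1, hε1⟩ : ∃ ε1 : ℝ, ε1 = min (ε / 4) (1 / 2) := ⟨_, rfl⟩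
  have hε1p : 0 < ε1 := by rw [hε1]; exact lt_min (by positivity) (by norm_num)
  have hε1a : ε1 ≤ ε / 4 := by rw [hε1]; exact min_le_left _ _
  have hε1b : ε1 ≤ 1 / 2 := by rw [hε1]; exact min_le_right _ _
  obtain ⟨C0, κ, hC0, hκ, h⟩ := hDPN ε1 hε1p
  refine ⟨κ, hκ, ?_⟩
  intro K hK
  have hKC : 0 < C0 * K := by positivity
  have hKE : 0 < (K + 1) ^ (2 / ε) := by positivity
  refine ⟨C0 * K + (K + 1) ^ (2 / ε), by positivity, ?_⟩
  intro N q a P y D hN hq hy hcop hNP hD1 hPD hDK hfil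
  have hNr : (1 : ℝ) ≤ N := by exact_mod_cast hN
  have hN0 : (0 : ℝ) < N := by linarith
  have hyr : (1 : ℝ) ≤ y := by exact_mod_cast hy
  have hsy : 1 ≤ Real.sqrt y := by rw [Real.one_le_sqrt]; exact hyr
  have hE1 : 1 ≤ (N : ℝ) ^ ε := Real.one_le_rpow hNr hε.le
  have hX1 : 1 ≤ (N : ℝ) ^ ε * y := by nlinarith
  have hhalf : (N : ℝ) ^ (ε / 4) * (N : ℝ) ^ (ε / 4) = (N : ℝ) ^ (ε / 2) := by
    rw [← Real.rpow_add hN0]; congr 1; ring
  have hfull : (N : ℝ) ^ (ε / 2) * (N : ℝ) ^ (ε / 2) = (N : ℝ) ^ ε := by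
    rw [← Real.rpow_add hN0]; congr 1; ring
  have hH1 : 1 ≤ (N : ℝ) ^ (ε / 2) := Real.one_le_rpow hNr (by positivity)
  rcases lt_or_ge ((N : ℝ) ^ (ε / 2)) (K + 1) with hs | hl
  · -- small `N`
    have h1 : (N : ℝ) ≤ (K + 1) ^ (2 / ε) := by
      calc (N : ℝ) = ((N : ℝ) ^ (ε / 2)) ^ (2 / ε) := by
            rw [← Real.rpow_mul hN0.le]
            have : ε / 2 * (2 / ε) = 1 := by field_simp
            rw [this, Real.rpow_one]
        _ ≤ (K + 1) ^ (2 / ε) := Real.rpow_le_rpow (by positivity) hs.le (by positivity)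
    calc ((SS N q a).card : ℝ) ≤ N := SS_card_le N q a
      _ ≤ (K + 1) ^ (2 / ε) := h1
      _ ≤ (C0 * K + (K + 1) ^ (2 / ε)) * 1 := by linarith
      _ ≤ (C0 * K + (K + 1) ^ (2 / ε)) * ((N : ℝ) ^ ε * y) := by gcongr
  · have hA : D ^ κ * (N : ℝ) ^ ε1 ≤ K * (N : ℝ) ^ (ε / 2) := by
      calc D ^ κ * (N : ℝ) ^ ε1 ≤ (K * (N : ℝ) ^ (ε / 4)) * (N : ℝ) ^ (ε / 4) := by
            apply mul_le_mul hDK (Real.rpow_le_rpow_of_exponent_le hNr hε1a) (by positivity)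
              (by positivity)
        _ = K * (N : ℝ) ^ (ε / 2) := by rw [mul_assoc, hhalf]
    have hB : D ^ κ * (N : ℝ) ^ ε1 * Real.sqrt y ≤ (NP q y).card := by
      have h1 : K * (N : ℝ) ^ (ε / 2) * Real.sqrt y + 1 ≤ (N : ℝ) ^ ε * Real.sqrt y := by
        have h2 : 1 ≤ (N : ℝ) ^ (ε / 2) * Real.sqrt y := by nlinarith
        calc K * (N : ℝ) ^ (ε / 2) * Real.sqrt y + 1
            ≤ K * (N : ℝ) ^ (ε / 2) * Real.sqrt y + (N : ℝ) ^ (ε / 2) * Real.sqrt y := by linarith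
          _ = (K + 1) * ((N : ℝ) ^ (ε / 2) * Real.sqrt y) := by ring
          _ ≤ (N : ℝ) ^ (ε / 2) * ((N : ℝ) ^ (ε / 2) * Real.sqrt y) := by gcongr
          _ = (N : ℝ) ^ ε * Real.sqrt y := by rw [← mul_assoc, hfull]
      have h3 := fil_card_le q y
      have h4 : D ^ κ * (N : ℝ) ^ ε1 * Real.sqrt y ≤ K * (N : ℝ) ^ (ε / 2) * Real.sqrt y :=
        mul_le_mul_of_nonneg_right hA (by positivity)
      linarith
    have hP : (N : ℝ) ^ ε1 ≤ P := by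
      calc (N : ℝ) ^ ε1 ≤ (N : ℝ) ^ (1 / 2 : ℝ) := Real.rpow_le_rpow_of_exponent_le hNr hε1b
        _ = Real.sqrt N := (Real.sqrt_eq_rpow _).symm
        _ ≤ P := hNP
    have h1 := h N q a P y D hN hq hy hcop hP hD1 hPD hB
    calc ((SS N q a).card : ℝ) ≤ C0 * (D ^ κ * (N : ℝ) ^ ε1 * y) := h1
      _ ≤ C0 * (K * (N : ℝ) ^ (ε / 2) * y) := by gcongr
      _ ≤ C0 * (K * ((N : ℝ) ^ (ε / 2) * (N : ℝ) ^ (ε / 2)) * y) := by
        have h2 : (N : ℝ) ^ (ε / 2) ≤ (N : ℝ) ^ (ε / 2) * (N : ℝ) ^ (ε / 2) := by nlinarith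
        gcongr
      _ = C0 * K * ((N : ℝ) ^ ε * y) := by rw [hfull]; ring
      _ ≤ (C0 * K + (K + 1) ^ (2 / ε)) * ((N : ℝ) ^ ε * y) := by
        gcongr
        linarith

theorem st_MAIN6P (hPL : ST_PL2) (hGS : ST_GS) (hLLC : ST_LLC) (hDPN : ST_DPN) :
    ST_MAIN6P := by
  intro ε hε
  obtain ⟨c0, CP, hc0, hCP, hPL⟩ := hPL
  obtain ⟨CG, hCG, hGS⟩ := hGS
  obtain ⟨κ, hκ, hU⟩ := dpn_use hDPN ε hε
  -- branch A
  obtain ⟨CA, hCA, hUA⟩ := hU 2 (by norm_num)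
  obtain ⟨η, hη0, hη1, hη2, hη3⟩ : ∃ η : ℝ, 0 < η ∧ η < 1 ∧ η * κ ≤ 1 ∧ η * κ ≤ ε / 2 := by
    refine ⟨min (1 / 2) (min (1 / κ) (ε / (2 * κ))), ?_, ?_, ?_, ?_⟩
    · apply lt_min (by norm_num) (lt_min (by positivity) (by positivity))
    · calc min (1 / 2) (min (1 / κ) (ε / (2 * κ))) ≤ 1 / 2 := min_le_left _ _
        _ < 1 := by norm_num
    · calc min (1 / 2) (min (1 / κ) (ε / (2 * κ))) * κ ≤ (1 / κ) * κ :=
            mul_le_mul_of_nonneg_right ((min_le_right _ _).trans (min_le_left _ _)) hκ.le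
        _ = 1 := by field_simp
    · calc min (1 / 2) (min (1 / κ) (ε / (2 * κ))) * κ ≤ (ε / (2 * κ)) * κ :=
            mul_le_mul_of_nonneg_right ((min_le_right _ _).trans (min_le_right _ _)) hκ.le
        _ = ε / 2 := by field_simp
  obtain ⟨c, hc, hLL⟩ := hLLC η hη0 hη1
  -- branch B
  obtain ⟨c', hc'⟩ : ∃ c' : ℝ, c' = min c0 1 := ⟨_, rfl⟩
  have hc'0 : 0 < c' := by rw [hc']; exact lt_min hc0 (by norm_num)
  have hc'1 : c' ≤ 1 := by rw [hc']; exact min_le_right _ _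
  have hc'2 : c' ≤ c0 := by rw [hc']; exact min_le_left _ _
  obtain ⟨δ, hδ⟩ : ∃ δ : ℝ, δ = ε / (4 * κ) := ⟨_, rfl⟩
  have hδ0 : 0 < δ := by rw [hδ]; positivity
  have hδκ : δ * κ = ε / 4 := by rw [hδ]; field_simp
  obtain ⟨K0, hK0⟩ : ∃ K0 : ℝ, K0 = (1 + 1 / δ) / c' := ⟨_, rfl⟩
  have hK01 : 1 ≤ K0 := by
    rw [hK0, le_div_iff₀ hc'0, one_mul]
    have : 0 < 1 / δ := by positivity
    linarith
  have hK1 : 1 ≤ K0 ^ κ := Real.one_le_rpow hK01 hκ.le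
  obtain ⟨CB, hCB, hUB⟩ := hU (K0 ^ κ) hK1
  have h4 : 0 < 4 * CG / c := by positivity
  refine ⟨4 * CG / c + CA + 2 * CP + CB, by positivity, ?_⟩
  intro N q a y hN hq hy hcop hfil
  have hNr : (1 : ℝ) ≤ N := by exact_mod_cast hN
  have hN0 : (0 : ℝ) < N := by linarith
  have hyr : (1 : ℝ) ≤ y := by exact_mod_cast hy
  have hqr : (0 : ℝ) < (q : ℝ) := by exact_mod_cast hq
  have hφ : (0 : ℝ) < (Nat.totient q : ℝ) := by exact_mod_cast Nat.totient_pos.mpr hq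
  obtain ⟨g, hg⟩ : ∃ g : ℝ, g = (q : ℝ) / (Nat.totient q : ℝ) := ⟨_, rfl⟩
  have hg0 : 0 < g := by rw [hg]; positivity
  have hlog0 : 0 ≤ Real.log (N : ℝ) := Real.log_natCast_nonneg N
  obtain ⟨X, hX⟩ : ∃ X : ℝ, X = (N : ℝ) ^ ε * y := ⟨_, rfl⟩
  have hX0 : 0 < X := by rw [hX]; positivity
  have hsq1 : 1 ≤ Real.sqrt N := by rw [Real.one_le_sqrt]; exact hNr
  obtain ⟨Q, hQ⟩ : ∃ Q : ℕ, Q = ⌈Real.sqrt N⌉₊ := ⟨_, rfl⟩
  have hQl : Real.sqrt N ≤ Q := by rw [hQ]; exact Nat.le_ceil _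
  have hQu : (Q : ℝ) < Real.sqrt N + 1 := by rw [hQ]; exact Nat.ceil_lt_add_one (by positivity)
  have hQ1 : (1 : ℝ) ≤ Q := by linarith
  have hQ0 : (0 : ℝ) < Q := by linarith
  have hQ1n : 1 ≤ Q := by exact_mod_cast hQ1
  have hQ2 : (Q : ℝ) ≤ 2 * Real.sqrt N := by linarith
  have hNQ : (N : ℝ) ≤ (Q : ℝ) ^ 2 := by
    calc (N : ℝ) = Real.sqrt N ^ 2 := (Real.sq_sqrt hN0.le).symm
      _ ≤ (Q : ℝ) ^ 2 := by gcongr
  have hA : ((SS N q a).card : ℝ) ≤ 4 * CG / c * (Real.sqrt N * g) + CA * X := by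
    rcases le_or_gt ((PP q Q).card : ℝ) ((Q : ℝ) ^ (1 - η)) with hfew | hmany
    · -- few primes: the sieve
      obtain ⟨R, hR⟩ : ∃ R : ℝ, R = ((SS N q a).card : ℝ) := ⟨_, rfl⟩
      have h1 := hLL q Q hq hQ1n hfew
      have h2 := hGS N q a Q hN hQ1n hcop
      rw [← hR] at h2 ⊢
      have hR0 : 0 ≤ R := by rw [hR]; positivity
      have h3 : c * ((Q : ℝ) * ((Nat.totient q : ℝ) / (q : ℝ))) * R ≤ CG * (2 * (Q : ℝ) ^ 2) := by
        calc c * ((Q : ℝ) * ((Nat.totient q : ℝ) / (q : ℝ))) * R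
            ≤ (∑ r ∈ RR q Q, gg r) * R := mul_le_mul_of_nonneg_right h1 hR0
          _ ≤ CG * ((N : ℝ) + (Q : ℝ) ^ 2) := h2
          _ ≤ CG * (2 * (Q : ℝ) ^ 2) := by gcongr; linarith
      have h4 : (Nat.totient q : ℝ) / (q : ℝ) = 1 / g := by
        rw [hg]; field_simp
      rw [h4] at h3
      have h5 : R ≤ 2 * CG / c * Q * g := by
        have h6 : c * ((Q : ℝ) * (1 / g)) * R = (c * Q / g) * R := by ring
        rw [h6] at h3
        have h7 : 0 < c * Q / g := by positivity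
        have h8 : R = (c * Q / g) * R / (c * Q / g) := by field_simp
        rw [h8]
        calc (c * Q / g) * R / (c * Q / g) ≤ CG * (2 * (Q : ℝ) ^ 2) / (c * Q / g) := by gcongr
          _ = 2 * CG / c * Q * g := by field_simp
      have h9 : 0 ≤ CA * X := by positivity
      calc R ≤ 2 * CG / c * Q * g := h5
        _ ≤ 2 * CG / c * (2 * Real.sqrt N) * g := by gcongr
        _ = 4 * CG / c * (Real.sqrt N * g) := by ring
        _ ≤ 4 * CG / c * (Real.sqrt N * g) + CA * X := by linarith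
    · -- many primes: DPN
      have hD1 : 1 ≤ (Q : ℝ) ^ η := Real.one_le_rpow hQ1 hη0.le
      have hQs : (Q : ℝ) ^ η * (Q : ℝ) ^ (1 - η) = Q := by
        rw [← Real.rpow_add hQ0]; norm_num
      have hQη : (Q : ℝ) ^ (η * κ) ≤ 2 * (N : ℝ) ^ (ε / 4) := by
        have ht0 : 0 ≤ η * κ := by positivity
        calc (Q : ℝ) ^ (η * κ) ≤ (2 * Real.sqrt N) ^ (η * κ) := Real.rpow_le_rpow hQ0.le hQ2 ht0
          _ = 2 ^ (η * κ) * Real.sqrt N ^ (η * κ) :=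
            Real.mul_rpow (by norm_num) (Real.sqrt_nonneg _)
          _ ≤ 2 ^ (1 : ℝ) * Real.sqrt N ^ (ε / 2) := by
            apply mul_le_mul _ _ (by positivity) (by positivity)
            · exact Real.rpow_le_rpow_of_exponent_le (by norm_num) hη2
            · exact Real.rpow_le_rpow_of_exponent_le hsq1 hη3
          _ = 2 * (N : ℝ) ^ (ε / 4) := by
            rw [Real.sqrt_eq_rpow, ← Real.rpow_mul hN0.le, Real.rpow_one]
            congr 2; ring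
      have h1 := hUA N q a Q y ((Q : ℝ) ^ η) hN hq hy hcop hQl hD1 (by
        calc (Q : ℝ) = (Q : ℝ) ^ η * (Q : ℝ) ^ (1 - η) := hQs.symm
          _ ≤ (Q : ℝ) ^ η * ((PP q Q).card : ℝ) := by gcongr) (by
        rw [← Real.rpow_mul hQ0.le]; exact hQη) hfil
      rw [← hX] at h1
      have h2 : 0 ≤ 4 * CG / c * (Real.sqrt N * g) := by positivity
      linarith
  have hB : ((SS N q a).card : ℝ) ≤ 2 * CP * (Real.sqrt N * (1 + Real.log N)) + CB * X := by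
    rcases lt_or_ge ((SS N q a).card : ℝ) (CP * (1 + Real.log N) * Q) with hlt | hge
    · have h1 : 0 ≤ CB * X := by positivity
      calc ((SS N q a).card : ℝ) ≤ CP * (1 + Real.log N) * Q := hlt.le
        _ ≤ CP * (1 + Real.log N) * (2 * Real.sqrt N) := by gcongr
        _ = 2 * CP * (Real.sqrt N * (1 + Real.log N)) := by ring
        _ ≤ _ := by linarith
    · have hQN : Q ≤ N := by
        rw [hQ, Nat.ceil_le]
        calc Real.sqrt N ≤ Real.sqrt N * Real.sqrt N := by nlinarith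
          _ = N := Real.mul_self_sqrt hN0.le
      have h1 := hPL N q a Q hN hq hcop (by exact_mod_cast hNQ) hQN hge
      have hL1 : 1 ≤ 1 + Real.log N := by linarith
      have hL0 : 0 < 1 + Real.log N := by linarith
      have hD1 : 1 ≤ (1 + Real.log N) / c' := by
        rw [le_div_iff₀ hc'0, one_mul]; linarith
      have h2 : (Q : ℝ) ≤ (1 + Real.log N) / c' * ((PP q Q).card : ℝ) := by
        have h3 : c' * Q / (1 + Real.log N) ≤ (PP q Q).card := by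
          refine le_trans ?_ h1
          gcongr
        calc (Q : ℝ) = (1 + Real.log N) / c' * (c' * Q / (1 + Real.log N)) := by field_simp
          _ ≤ (1 + Real.log N) / c' * ((PP q Q).card : ℝ) := by gcongr
      have h3 : ((1 + Real.log N) / c') ^ κ ≤ K0 ^ κ * (N : ℝ) ^ (ε / 4) := by
        have h4 : Real.log N ≤ 1 / δ * (N : ℝ) ^ δ := by
          have h5 := Real.log_le_rpow_div hN0.le hδ0
          have h6 : (N : ℝ) ^ δ / δ = 1 / δ * (N : ℝ) ^ δ := by ring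
          rw [h6] at h5
          exact h5
        have h5 : 1 ≤ (N : ℝ) ^ δ := Real.one_le_rpow hNr hδ0.le
        have h6 : (1 + Real.log N) / c' ≤ K0 * (N : ℝ) ^ δ := by
          calc (1 + Real.log N) / c' ≤ ((1 + 1 / δ) * (N : ℝ) ^ δ) / c' := by
                gcongr
                linarith
            _ = K0 * (N : ℝ) ^ δ := by rw [hK0]; ring
        calc ((1 + Real.log N) / c') ^ κ ≤ (K0 * (N : ℝ) ^ δ) ^ κ :=
              Real.rpow_le_rpow (by positivity) h6 hκ.le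
          _ = K0 ^ κ * ((N : ℝ) ^ δ) ^ κ := Real.mul_rpow (by linarith) (by positivity)
          _ = K0 ^ κ * (N : ℝ) ^ (ε / 4) := by rw [← Real.rpow_mul hN0.le, hδκ]
      have h4 := hUB N q a Q y _ hN hq hy hcop hQl hD1 h2 h3 hfil
      rw [← hX] at h4
      have h5 : 0 ≤ 2 * CP * (Real.sqrt N * (1 + Real.log N)) := by positivity
      linarith
  show ((SS N q a).card : ℝ) ≤ _
  rw [← hg, ← hX]
  obtain ⟨mn, hmn⟩ : ∃ mn : ℝ, mn = min g (1 + Real.log N) := ⟨_, rfl⟩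
  rw [← hmn]
  have hmn0 : 0 ≤ mn := by rw [hmn]; exact le_min hg0.le (by linarith)
  have hT : 0 ≤ Real.sqrt N * mn := by positivity
  rcases min_choice g (1 + Real.log N) with h | h
  · rw [← hmn] at h
    rw [← h] at hA
    nlinarith [mul_nonneg hCA.le hT, mul_nonneg hCP.le hT, mul_nonneg hCB.le hT,
      mul_nonneg h4.le hX0.le, mul_nonneg hCP.le hX0.le, mul_nonneg hCB.le hX0.le]
  · rw [← hmn] at h
    rw [← h] at hB
    nlinarith [mul_nonneg hCA.le hT, mul_nonneg h4.le hT, mul_nonneg hCB.le hT,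
      mul_nonneg h4.le hX0.le, mul_nonneg hCP.le hX0.le, mul_nonneg hCA.le hX0.le]

end Pool.Agent.Helper56.RD6
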